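import Pool.Agent.L5helper39.AD.Sat

/-!
# MP_af815a_al: regular cardinals with a saturated ideal
-/

set_option autoImplicit false
set_option linter.all false

open Cardinal MeasureTheory

universe u

namespace Pool.Agent.Results.MP_af815a_al.SaturatedIdeals

open Pool.Agent.L5helper39.AD

/-- `x, y, z, w` are at most two different elements: `x = z, y = w`, or `x = y, z = w`, or
`x = w, y = z`. -/
def TwoValues {G : Type u} (x y z w : G) : Prop :=
  (x = z ∧ y = w) ∨ (x = y ∧ z = w) ∨ (x = w ∧ y = z)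

/-- the condition of the problem -/
def Admissible {G : Type u} [Group G] (H : Set G) : Prop :=
  ∀ x ∈ H, ∀ y ∈ H, ∀ z ∈ H, x⁻¹ * y = y⁻¹ * z → x = z

/-- Sidon set of the first kind -/
def FirstKind {G : Type u} [Group G] (H : Set G) : Prop :=
  ∀ x ∈ H, ∀ y ∈ H, ∀ z ∈ H, ∀ w ∈ H, x * y = z * w → TwoValues x y z w

/-- Sidon set of the second kind, for left and right quotients -/
def SecondKind {G : Type u} [Group G] (H : Set G) : Prop :=
  ∀ x ∈ H, ∀ y ∈ H, ∀ z ∈ H, ∀ w ∈ H,
    (x⁻¹ * y = z⁻¹ * w ∨ x * y⁻¹ = z * w⁻¹) → TwoValues x y z w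

theorem admissible_of_left {G : Type u} [Group G] (H : Set G)
    (hl : ∀ x ∈ H, ∀ y ∈ H, ∀ z ∈ H, ∀ w ∈ H,
      x⁻¹ * y = z⁻¹ * w → (x = z ∧ y = w) ∨ (x = y ∧ z = w) ∨ (x = w ∧ y = z)) :
    Admissible H := by
  intro x hx y hy z hz he
  rcases hl x hx y hy y hy z hz he with h | h | h
  · exact h.1.trans h.2
  · exact h.1.trans h.2
  · exact h.1

theorem secondKind_of_left {G : Type u} [Group G] (H : Set G)
    (hl : ∀ x ∈ H, ∀ y ∈ H, ∀ z ∈ H, ∀ w ∈ H,
      x⁻¹ * y = z⁻¹ * w → (x = z ∧ y = w) ∨ (x = y ∧ z = w) ∨ (x = w ∧ y = z)) :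
    SecondKind H := by
  rintro x hx y hy z hz w hw (he | he)
  · exact hl x hx y hy z hz w hw he
  · have he' : z⁻¹ * x = w⁻¹ * y := by
      have : x = z * w⁻¹ * y := by rw [← he]; group
      rw [this]; group
    rcases hl z hz x hx w hw y hy he' with h | h | h
    · exact Or.inr (Or.inl ⟨h.2, h.1⟩)
    · exact Or.inl ⟨h.1.symm, h.2.symm⟩
    · exact Or.inr (Or.inr ⟨h.2, h.1.symm⟩)

/-- the general theorem for a set indexed by a type with a filter -/
theorem main {X : Type u} (F : Filter X) [F.NeBot] (hreg : (#X).IsRegular)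
    (hpt : ∀ a, ({a} : Set X)ᶜ ∈ F)
    (hcomp : ∀ A : Set (Set X), #A < #X → (∀ a ∈ A, a ∈ F) → ⋂₀ A ∈ F)
    (hsat : ∀ A : Set (Set X), (∀ a ∈ A, aᶜ ∉ F) → A.PairwiseDisjoint id → #A < #X)
    (G : Type u) [Group G] (Y : Set G) (hY : #Y = #X) :
    ∃ H ⊆ Y, #H = #Y ∧ Admissible H ∧ SecondKind H ∧ FirstKind H := by
  obtain ⟨φ⟩ := Cardinal.eq.1 hY.symm
  let y : X → G := fun a => (φ a : G)
  have hy : Function.Injective y := Subtype.val_injective.comp φ.injective
  have hr : Set.range y = Y := by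
    ext g
    constructor
    · rintro ⟨a, rfl⟩
      exact (φ a).2
    · intro hg
      exact ⟨φ.symm ⟨g, hg⟩, by simp [y]⟩
  obtain ⟨H, h1, h2, h3, h4⟩ := sat_main F y Set.univ hy hreg hpt hcomp
    (fun x _ => card_Nbr F y Set.univ hreg.aleph0_le hsat x)
  have h3' := h3 (Set.mem_univ _)
  exact ⟨H, hr ▸ h1, h2.trans hY.symm, admissible_of_left H h3', secondKind_of_left H h3',
    h4 (Set.mem_univ _) (Set.mem_univ _)⟩

/-- Let `X` carry a proper filter `F` which contains the complements of points, is closed under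
intersections of fewer than `#X` sets, and such that there are no `#X` pairwise disjoint sets whose
complements are not in `F` (that is, a `#X`-complete `#X`-saturated ideal), `#X` regular. Then every
subset `Y` of a group with `#Y = #X` contains an admissible set of cardinality `#Y`. In particular
this is so if `#X` is real-valued measurable. -/
theorem result :
    (∀ (X : Type u) (F : Filter X) [F.NeBot], (#X).IsRegular →
      (∀ a, ({a} : Set X)ᶜ ∈ F) →
      (∀ A : Set (Set X), #A < #X → (∀ a ∈ A, a ∈ F) → ⋂₀ A ∈ F) →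
      (∀ A : Set (Set X), (∀ a ∈ A, aᶜ ∉ F) → A.PairwiseDisjoint id → #A < #X) →
      ∀ (G : Type u) [Group G] (Y : Set G), #Y = #X →
        ∃ H ⊆ Y, #H = #Y ∧ Admissible H ∧ SecondKind H ∧ FirstKind H) ∧
    (∀ (X : Type u) [MeasurableSpace X] (μ : Measure X) [IsProbabilityMeasure μ],
      (∀ s : Set X, MeasurableSet s) → (∀ a, μ {a} = 0) →
      (#X).IsRegular →
      (∀ A : Set (Set X), #A < #X → (∀ a ∈ A, μ a = 0) → μ (⋃₀ A) = 0) →
      ∀ (G : Type u) [Group G] (Y : Set G), #Y = #X →
        ∃ H ⊆ Y, #H = #Y ∧ Admissible H ∧ SecondKind H ∧ FirstKind H) := by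
  refine ⟨?_, ?_⟩
  · intro X F _ hreg hpt hcomp hsat G _ Y hY
    exact main F hreg hpt hcomp hsat G Y hY
  · intro X _ μ _ hmeas hpt hreg hadd G _ Y hY
    have hω : ℵ₀ < #X := by
      rcases hreg.aleph0_le.lt_or_eq with h | h
      · exact h
      · exfalso
        have hc : Countable X := mk_le_aleph0_iff.1 h.ge
        have h1 : μ (Set.univ : Set X) = 0 := by
          rw [← Set.biUnion_of_singleton (Set.univ : Set X)]
          exact (measure_biUnion_null_iff (Set.countable_univ)).2 fun a _ => hpt a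
        rw [measure_univ] at h1
        exact one_ne_zero h1
    refine main (ae μ) hreg ?_ ?_ ?_ G Y hY
    · intro a
      rw [mem_ae_iff, compl_compl]
      exact hpt a
    · intro A hA hmem
      rw [mem_ae_iff, Set.compl_sInter]
      apply hadd
      · exact mk_image_le.trans_lt hA
      · rintro _ ⟨a, ha, rfl⟩
        exact mem_ae_iff.1 (hmem a ha)
    · intro A hA hdis
      have hpos : ∀ a : A, 0 < μ (a : Set X) := by
        intro a
        rw [pos_iff_ne_zero]
        intro h0
        apply hA a a.2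
        rw [mem_ae_iff, compl_compl]
        exact h0
      have h1 : Set.Countable {i : A | 0 < μ (i : Set X)} :=
        Measure.countable_meas_pos_of_disjoint_iUnion (μ := μ) (fun i => hmeas _)
          (fun i j hij => hdis i.2 j.2 (fun h => hij (Subtype.ext h)))
      have h2 : {i : A | 0 < μ (i : Set X)} = Set.univ := by
        ext i
        simp [hpos i]
      rw [h2, Set.countable_univ_iff] at h1
      exact (mk_le_aleph0_iff.2 h1).trans_lt hω

end Pool.Agent.Results.MP_af815a_al.SaturatedIdeals
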