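import Pool.Agent.L5helper39.AD.Main

/-!
# MP_af815a_al: groups whose cardinality is a singular strong limit cardinal
-/

set_option autoImplicit false
set_option linter.all false

open Cardinal

universe u

namespace Pool.Agent.Results.MP_af815a_al.StrongLimitCardinals

open Pool.Agent.L5helper39.AD

/-- Singular `κ`, and `Y` with more than `2 ^ μ` elements for each `μ < κ`. -/
theorem main (κ : Cardinal.{u}) (hinf : ℵ₀ ≤ κ) (hreg : ¬ κ.IsRegular) (G : Type u) [Group G]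
    (Y : Set G) (hY : ∀ μ < κ, 2 ^ μ < #Y) :
    ∃ H ⊆ Y, #H = κ ∧
      (∀ x ∈ H, ∀ y ∈ H, ∀ z ∈ H, ∀ w ∈ H,
        x⁻¹ * y = z⁻¹ * w → (x = z ∧ y = w) ∨ (x = y ∧ z = w) ∨ (x = w ∧ y = z)) ∧
      (∀ x ∈ H, ∀ y ∈ H, ∀ z ∈ H, ∀ w ∈ H,
        x * y = z * w → (x = z ∧ y = w) ∨ (x = y ∧ z = w) ∨ (x = w ∧ y = z)) := by
  classical
  have hcof : κ.ord.cof < κ := by
    by_contra h
    exact hreg ⟨hinf, not_lt.1 h⟩
  have hω : ℵ₀ < κ := by
    rcases hinf.lt_or_eq with h | h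
    · exact h
    · exact absurd (h ▸ isRegular_aleph0) hreg
  obtain ⟨ι, f, hf, hι⟩ := Ordinal.exists_lsub_cof κ.ord
  have hι' : #ι < κ := hι ▸ hcof
  set c : ι → Cardinal.{u} := fun i => max (f i).card (max #ι ℵ₀) with hc
  have hclt : ∀ i, c i < κ := by
    intro i
    refine max_lt ?_ (max_lt hι' hω)
    rw [← lt_ord, ← hf]
    exact Ordinal.lt_lsub f i
  have hcof' : ∀ ν : Cardinal.{u}, ν < κ → ∃ i, ν ≤ c i := by
    intro ν hν
    have h1 : ν.ord < Ordinal.lsub.{u, u} f := by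
      rw [hf]
      exact ord_lt_ord.2 hν
    obtain ⟨i, hi⟩ := Ordinal.lt_lsub_iff.1 h1
    refine ⟨i, le_trans ?_ (le_max_left _ _)⟩
    rw [← card_ord ν]
    exact Ordinal.card_le_card hi
  -- elements outside the closed sets
  have hys : ∀ i, ∃ g, g ∈ Y ∧ g ∉ M Y (c i) := by
    intro i
    by_contra hcon
    push Not at hcon
    have h1 : Y ⊆ M Y (c i) := hcon
    have h2 := mk_le_mk_of_subset h1
    have h3 := card_M Y (c i) ((le_max_right _ _).trans (le_max_right _ _))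
    exact absurd (h2.trans h3) (not_le.2 (hY _ (hclt i)))
  have hys' : ∀ m : Cardinal.{u}, ∃ g : G, ∀ i, m = c i → g ∈ Y ∧ g ∉ M Y (c i) := by
    intro m
    by_cases h : ∃ i, m = c i
    · obtain ⟨i, hi⟩ := h
      obtain ⟨g, hg1, hg2⟩ := hys i
      refine ⟨g, fun j hj => ⟨hg1, ?_⟩⟩
      rw [← hj, hi]
      exact hg2
    · exact ⟨1, fun i hi => absurd ⟨i, hi⟩ h⟩
  choose ys hys2 using hys'
  -- the index set
  let T : Type u := κ.ord.ToType
  have hT : #T = κ := mk_ord_toType _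
  have hIio : ∀ a : T, #(Set.Iio a) < κ := fun a => mk_Iio_toType_ord_lt a
  have hk : ∀ a : T, ∃ i, #(Set.Iio a) ≤ c i ∧ ∀ j, #(Set.Iio a) ≤ c j → c i ≤ c j := by
    intro a
    have hne : {m | ∃ i, c i = m ∧ #(Set.Iio a) ≤ m}.Nonempty := by
      obtain ⟨i, hi⟩ := hcof' _ (hIio a)
      exact ⟨c i, i, rfl, hi⟩
    obtain ⟨i, hi1, hi2⟩ := csInf_mem hne
    refine ⟨i, hi1 ▸ hi2, fun j hj => ?_⟩
    rw [hi1]
    exact csInf_le (OrderBot.bddBelow _) ⟨j, rfl, hj⟩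
  choose k hk1 hk2 using hk
  obtain ⟨h, hN⟩ := exists_seq (G := G) (ι := ι) (T := T) Y c ys k
    (fun i => (le_max_right _ _).trans (le_max_right _ _))
    (fun i => (le_max_left _ _).trans (le_max_right _ _))
    (fun a b hab => hk2 a (k b) (le_trans (mk_le_mk_of_subset (Set.Iio_subset_Iio hab)) (hk1 b)))
    hk1 (fun i => hys2 (c i) i rfl)
  obtain ⟨h1, h2, h3, h4⟩ := seq_good Y c ys k h hN
  refine ⟨Set.range h, ?_, ?_, h3, h4⟩
  · rintro _ ⟨a, rfl⟩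
    exact h2 a
  · rw [mk_range_eq h h1, hT]

theorem not_isRegular_beth (o : Ordinal.{u}) (ho : Order.IsSuccLimit o) (h : o.card < ℶ_ o) :
    ¬ (ℶ_ o).IsRegular := by
  intro hr
  have h1 : (ℶ_ o).ord.cof = ℶ_ o := hr.cof_ord
  have h2 : (ℶ_ o).ord.cof = o.cof :=
    Ordinal.cof_map_of_isNormal (f := fun a => (ℶ_ a).ord) (isNormal_ord.comp isNormal_beth) ho
  have h3 : o.cof ≤ o.card := Ordinal.cof_le_card o
  rw [h1] at h2
  rw [← h2] at h3
  exact absurd h3 (not_le.2 h)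

/-- Groups whose cardinality is a strong limit cardinal which is not regular (for instance `ℶ_ o` for
a limit ordinal `o` with `card o < ℶ_ o`): admissible subsets of full cardinality. For every singular
`κ`, every subset of a group with more than `2 ^ μ` elements for all `μ < κ` contains a Sidon set (of
both kinds) of cardinality `κ`, and every graph on `κ` vertices is an induced subgraph of a Cayley
graph of every group with more than `2 ^ μ` elements for all `μ < κ`. -/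
theorem result :
    (∀ (G : Type u) [Group G], (#G).IsStrongLimit → ¬ (#G).IsRegular →
      ∃ H : Set G, #H = #G ∧ ∀ x ∈ H, ∀ y ∈ H, ∀ z ∈ H, x⁻¹ * y = y⁻¹ * z → x = z) ∧
    (∀ o : Ordinal.{u}, Order.IsSuccLimit o → o.card < ℶ_ o →
      ∀ (G : Type u) [Group G], #G = ℶ_ o →
      ∃ H : Set G, #H = #G ∧ ∀ x ∈ H, ∀ y ∈ H, ∀ z ∈ H, x⁻¹ * y = y⁻¹ * z → x = z) ∧
    (∀ κ : Cardinal.{u}, ℵ₀ ≤ κ → ¬ κ.IsRegular →
      ∀ (G : Type u) [Group G] (Y : Set G), (∀ μ < κ, 2 ^ μ < #Y) →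
      ∃ H ⊆ Y, #H = κ ∧
        (∀ x ∈ H, ∀ y ∈ H, ∀ z ∈ H, ∀ w ∈ H,
          x⁻¹ * y = z⁻¹ * w → (x = z ∧ y = w) ∨ (x = y ∧ z = w) ∨ (x = w ∧ y = z)) ∧
        (∀ x ∈ H, ∀ y ∈ H, ∀ z ∈ H, ∀ w ∈ H,
          x * y⁻¹ = z * w⁻¹ → (x = z ∧ y = w) ∨ (x = y ∧ z = w) ∨ (x = w ∧ y = z)) ∧
        (∀ x ∈ H, ∀ y ∈ H, ∀ z ∈ H, ∀ w ∈ H,
          x * y = z * w → (x = z ∧ y = w) ∨ (x = y ∧ z = w) ∨ (x = w ∧ y = z))) ∧
    (∀ κ : Cardinal.{u}, ℵ₀ ≤ κ → ¬ κ.IsRegular →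
      ∀ (G : Type u) [Group G], (∀ μ < κ, 2 ^ μ < #G) →
      ∀ (V : Type u) (X : SimpleGraph V), #V = κ →
        ∃ S : Set G, 1 ∉ S ∧ (∀ s ∈ S, s⁻¹ ∈ S) ∧
          ∃ φ : V → G, Function.Injective φ ∧ ∀ u v, X.Adj u v ↔ (φ u)⁻¹ * φ v ∈ S) := by
  have h1 : ∀ (G : Type u) [Group G], (#G).IsStrongLimit → ¬ (#G).IsRegular →
      ∃ H : Set G, #H = #G ∧ ∀ x ∈ H, ∀ y ∈ H, ∀ z ∈ H, x⁻¹ * y = y⁻¹ * z → x = z := by
    intro G _ hs hr
    obtain ⟨H, _, hH, hl, _⟩ := main (#G) hs.aleph0_le hr G Set.univ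
      (by
        intro μ hμ
        rw [mk_univ]
        exact hs.isStrongPrelimit hμ)
    refine ⟨H, hH, fun x hx y hy z hz he => ?_⟩
    rcases hl x hx y hy y hy z hz he with h | h | h
    · exact h.1.trans h.2
    · exact h.1.trans h.2
    · exact h.1
  refine ⟨h1, ?_, ?_, ?_⟩
  · intro o ho hc G _ hG
    apply h1
    · rw [hG]
      exact isStrongLimit_beth.2 ho.isSuccPrelimit
    · rw [hG]
      exact not_isRegular_beth o ho hc
  · intro κ hκ hr G _ Y hY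
    obtain ⟨H, hHY, hH, hl, hp⟩ := main κ hκ hr G Y hY
    refine ⟨H, hHY, hH, hl, fun x hx y hy z hz w hw he => ?_, hp⟩
    have he' : z⁻¹ * x = w⁻¹ * y := by
      have : x = z * w⁻¹ * y := by rw [← he]; group
      rw [this]; group
    rcases hl z hz x hx w hw y hy he' with h | h | h
    · exact Or.inr (Or.inl ⟨h.2, h.1⟩)
    · exact Or.inl ⟨h.1.symm, h.2.symm⟩
    · exact Or.inr (Or.inr ⟨h.2, h.1.symm⟩)
  · intro κ hκ hr G _ hG V X hV
    obtain ⟨H, _, hH, hl, _⟩ := main κ hκ hr G Set.univ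
      (by
        intro μ hμ
        rw [mk_univ]
        exact hG μ hμ)
    obtain ⟨ψ⟩ := Cardinal.eq.1 (hV.trans hH.symm)
    refine ⟨{s | ∃ u v, X.Adj u v ∧ ((ψ u : H) : G)⁻¹ * (ψ v : H) = s}, ?_, ?_,
      fun v => (ψ v : H), Subtype.val_injective.comp ψ.injective, ?_⟩
    · rintro ⟨u, v, huv, he⟩
      have h1 : ((ψ u : H) : G) = (ψ v : H) := inv_mul_eq_one.1 he
      exact huv.ne (ψ.injective (Subtype.ext h1))
    · rintro _ ⟨u, v, huv, rfl⟩
      exact ⟨v, u, huv.symm, by group⟩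
    · intro u v
      constructor
      · intro huv
        exact ⟨u, v, huv, rfl⟩
      · rintro ⟨a, b, hab, he⟩
        have inj : ∀ c d : V, ((ψ c : H) : G) = (ψ d : H) → c = d := fun c d h =>
          ψ.injective (Subtype.ext h)
        rcases hl _ (ψ u).2 _ (ψ v).2 _ (ψ a).2 _ (ψ b).2 he.symm with h | h | h
        · rw [inj _ _ h.1, inj _ _ h.2]
          exact hab
        · exact absurd (inj _ _ h.2) hab.ne
        · rw [inj _ _ h.1, inj _ _ h.2]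
          exact hab.symm

end Pool.Agent.Results.MP_af815a_al.StrongLimitCardinals
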